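import Mathlib
import Pool.Agent.Helper562.STLCTaylor

open Set
open scoped ContDiff

namespace Pool.Agent.Results.MP_b41015_an.FlatHardy

open Pool.Agent.Helper562.STLC

lemma contDiff_fld_omega (e : ℝ) (m : ℕ) (i : Fin 8) : ContDiff ℝ ω (fld e m i) := by
  rw [contDiff_euclidean]
  intro j
  have hc : ∀ l : Fin 5, ContDiff ℝ ω (fun q : E 5 => q l) := fun l =>
    (EuclideanSpace.proj l : E 5 →L[ℝ] ℝ).contDiff
  fin_cases j
  · simpa [fld] using contDiff_const
  · simpa [fld] using contDiff_const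
  · simpa [fld] using contDiff_const
  · simpa [fld] using hc 1
  · have h : ContDiff ℝ ω (fun q : E 5 => (q 0 * q 1 + q 3 / 2) ^ 2 - q 2 * q 3 ^ 2 +
        e * q 2 ^ (2 * m)) :=
      (((((hc 0).mul (hc 1)).add ((hc 3).div_const 2)).pow 2).sub ((hc 2).mul ((hc 3).pow 2))).add
        (contDiff_const.mul ((hc 2).pow _))
    simpa [fld] using h

lemma analytic_fld (e : ℝ) (m : ℕ) (i : Fin 8) : AnalyticOnNhd ℝ (fld e m i) univ :=
  contDiff_omega_iff_analyticOnNhd.1 (contDiff_fld_omega e m i)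

/-- There is a family of eight polynomial vector fields on `ℝ ^ 5` which is small-time locally
controllable at the origin, although for every `N` some family of polynomial vector fields which
agrees with it to order `N` at the origin is not. -/
theorem result : ∃ f : Fin 8 → E 5 → E 5,
    (∀ i, IsPolynomialField (f i) ∧ AnalyticOnNhd ℝ (f i) univ) ∧ STLC f ∧
    ∀ N : ℕ, ∃ g : Fin 8 → E 5 → E 5,
      (∀ i, IsPolynomialField (g i) ∧ AnalyticOnNhd ℝ (g i) univ) ∧
      AgreeToOrder N f g ∧ ¬ STLC g :=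
  ⟨f0, fun i => ⟨isPolynomial_fld 0 0 i, analytic_fld 0 0 i⟩, stlc_f0, fun N =>
    ⟨fld 1 (N + 1), fun i => ⟨isPolynomial_fld 1 (N + 1) i, analytic_fld 1 (N + 1) i⟩,
      agree N, not_STLC (N + 1)⟩⟩

end Pool.Agent.Results.MP_b41015_an.FlatHardy
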